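import Pool.Agent.PJC.Stmts

set_option autoImplicit false

namespace Pool.Agent.PJC.H70

open Finset

variable {n : ℕ}

/-- `e ≤ ε`. -/
lemma e_le {s : Side n} {S : Set (Eu n)} {ε d : ℝ} (h : s.Good S ε d) (hε : ε < 1) (a : s.A) :
    s.e a ≤ ε := by
  have h1 : 0 ≤ ∑ i, s.w a i * (1 + inner ℝ (s.t' a i) (s.v a i)) := by
    refine sum_nonneg fun i _ => mul_nonneg (h.w0 a i) ?_
    have := abs_le.1 (h.pol _ (h.tS' a i) a i)
    linarith
  have h2 := h.bud a
  have h3 := h.k1 a
  have h4 := h.k0 a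
  have h5 := h.e0 a
  set E1 := ∑ i, s.w a i * (1 + inner ℝ (s.t' a i) (s.v a i))
  have h6 : 0 ≤ (1 - s.k a) * (E1 + s.e a) := mul_nonneg (by linarith) (by linarith)
  have h7 : s.k a ≤ ε := by linarith
  nlinarith [mul_nonneg (sub_nonneg.2 h3) h1]

/-- The inequality of a stationary side for a function of one scalar product. -/
lemma stat1 (r : Side n) {R : Set (Eu n)} {ε d : ℝ} (hr : r.Good R ε d) (x : Eu n) (c : ℝ)
    (h h' : ℝ → ℝ) (m : ℝ → ℝ → ℝ) (hb : ∀ z ∈ R, |h (inner ℝ x z / c)| ≤ 1)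
    (hm : ∀ u v, h u + h' u * (v - u) + m u v ≤ h v) :
    r.ex (fun b j => m (inner ℝ x (r.t b) / c) (inner ℝ x (r.t' b j) / c)) ≤
      d + r.ex (fun b _ => r.e b * (h' (inner ℝ x (r.t b) / c) * (inner ℝ x (r.t b) / c))) := by
  have h1 := (abs_le.1 (hr.stat (fun z => h (inner ℝ x z / c)) hb)).2
  have h2 : ∀ b, ∑ j, r.w b j * (inner ℝ x (r.t' b j) / c) =
      (1 - r.e b) * (inner ℝ x (r.t b) / c) := by
    intro b
    have := congrArg (fun y => inner ℝ x y) (hr.mean b)
    simp only [inner_sum, inner_smul_right] at this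
    rw [← mul_div_assoc, ← this, sum_div]
    refine sum_congr rfl fun j _ => ?_
    ring
  rw [r.ex_left hr.wt]
  unfold Side.ex
  rw [← sub_nonneg]
  have h3 : ∀ b, ∑ j, r.w b j * m (inner ℝ x (r.t b) / c) (inner ℝ x (r.t' b j) / c) ≤
      (∑ j, r.w b j * h (inner ℝ x (r.t' b j) / c) - h (inner ℝ x (r.t b) / c)) +
        r.e b * (h' (inner ℝ x (r.t b) / c) * (inner ℝ x (r.t b) / c)) := by
    intro b
    set X := inner ℝ x (r.t b) / c with hX
    have h4 : ∑ j, r.w b j * (m X (inner ℝ x (r.t' b j) / c)) ≤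
        ∑ j, r.w b j * (h (inner ℝ x (r.t' b j) / c) - h X -
          h' X * (inner ℝ x (r.t' b j) / c - X)) :=
      sum_le_sum fun j _ => mul_le_mul_of_nonneg_left (by linarith [hm X (inner ℝ x (r.t' b j) / c)])
        (hr.w0 b j)
    have h5 : ∑ j, r.w b j * (h (inner ℝ x (r.t' b j) / c) - h X -
          h' X * (inner ℝ x (r.t' b j) / c - X)) =
        ∑ j, r.w b j * h (inner ℝ x (r.t' b j) / c) - (∑ j, r.w b j) * h X
          - h' X * (∑ j, r.w b j * (inner ℝ x (r.t' b j) / c) - (∑ j, r.w b j) * X) := by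
      rw [sum_mul, sum_mul, ← sum_sub_distrib, ← sum_sub_distrib, mul_sum, ← sum_sub_distrib]
      refine sum_congr rfl fun j _ => ?_
      ring
    rw [h5, h2, hr.w1] at h4
    linarith
  have h6 : ∑ b, r.μ b * ∑ j, r.w b j * m (inner ℝ x (r.t b) / c) (inner ℝ x (r.t' b j) / c) ≤
      ∑ b, (r.μ b * (∑ j, r.w b j * h (inner ℝ x (r.t' b j) / c) - h (inner ℝ x (r.t b) / c)) +
        r.μ b * (r.e b * (h' (inner ℝ x (r.t b) / c) * (inner ℝ x (r.t b) / c)))) := by
    refine sum_le_sum fun b _ => ?_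
    rw [← mul_add]
    exact mul_le_mul_of_nonneg_left (h3 b) (hr.mu0 b)
  rw [sum_add_distrib] at h6
  linarith

/-- Huber's function. -/
noncomputable def hf (l x : ℝ) : ℝ := if |x| ≤ l then x ^ 2 / (2 * l) else |x| - l / 2

/-- Its derivative. -/
noncomputable def hd (l x : ℝ) : ℝ := if |x| ≤ l then x / l else (if 0 ≤ x then 1 else -1)

/-- The remainder. -/
noncomputable def hm (l x y : ℝ) : ℝ :=
  if |x| ≤ l / 2 then min ((y - x) ^ 2 / (2 * l)) (|y - x| / 4) else 0

lemma hf_nonneg (l x : ℝ) (hl : 0 < l) : 0 ≤ hf l x := by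
  unfold hf
  split_ifs with h
  · positivity
  · push Not at h
    linarith

lemma hf_le (l x : ℝ) (hl : 0 < l) : hf l x ≤ |x| := by
  unfold hf
  split_ifs with h
  · rw [div_le_iff₀ (by positivity), ← sq_abs]
    nlinarith [abs_nonneg x]
  · linarith

lemma hd_mul (l x : ℝ) (hl : 0 < l) : hd l x * x ≤ |x| := by
  unfold hd
  split_ifs with h h2
  · rw [div_mul_eq_mul_div, div_le_iff₀ hl, ← abs_mul_abs_self x]
    exact mul_le_mul_of_nonneg_left h (abs_nonneg x)
  · rw [one_mul]; exact le_abs_self x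
  · rw [neg_one_mul]; exact neg_le_abs x

lemma hf_rem (l x y : ℝ) (hl : 0 < l) : hf l x + hd l x * (y - x) + hm l x y ≤ hf l y := by
  have key : ∀ x y : ℝ, |x| ≤ l → l < y → x ^ 2 / (2 * l) + x / l * (y - x) +
      (1 - x / l) * (y - (l + x) / 2) = y - l / 2 := by
    intro x y _ _
    field_simp
    ring
  have key' : ∀ x y : ℝ, |x| ≤ l → y < - l → x ^ 2 / (2 * l) + x / l * (y - x) +
      (1 + x / l) * (-y - (l - x) / 2) = -y - l / 2 := by
    intro x y _ _
    field_simp
    ring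
  unfold hf hd hm
  by_cases hx : |x| ≤ l
  · rw [if_pos hx, if_pos hx]
    have hx' := abs_le.1 hx
    by_cases hy : |y| ≤ l
    · rw [if_pos hy]
      have e : x ^ 2 / (2 * l) + x / l * (y - x) + (y - x) ^ 2 / (2 * l) = y ^ 2 / (2 * l) := by
        field_simp
        ring
      split_ifs with h
      · have := min_le_left ((y - x) ^ 2 / (2 * l)) (|y - x| / 4)
        linarith
      · have : 0 ≤ (y - x) ^ 2 / (2 * l) := by positivity
        linarith
    · rw [if_neg hy]
      push Not at hy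
      rcases le_or_gt 0 y with h0 | h0
      · rw [abs_of_nonneg h0] at hy ⊢
        have e := key x y hx hy
        have h1 : x / l ≤ 1 := (div_le_one hl).2 hx'.2
        split_ifs with h
        · have h2 := (abs_le.1 h).2
          have h3 : x / l ≤ 1 / 2 := by
            rw [div_le_div_iff₀ hl (by norm_num)]
            linarith
          have h4 := min_le_right ((y - x) ^ 2 / (2 * l)) (|y - x| / 4)
          rw [abs_of_nonneg (by linarith : 0 ≤ y - x)] at h4 ⊢
          nlinarith [mul_nonneg (by linarith : 0 ≤ 1 / 2 - x / l) (by linarith : 0 ≤ y - (l + x) / 2)]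
        · nlinarith [mul_nonneg (sub_nonneg.2 h1) (by linarith : 0 ≤ y - (l + x) / 2)]
      · rw [abs_of_neg h0] at hy ⊢
        have hy' : y < -l := by linarith
        have e := key' x y hx hy'
        have h1 : -1 ≤ x / l := by
          rw [le_div_iff₀ hl]
          linarith
        split_ifs with h
        · have h2 := (abs_le.1 h).1
          have h3 : -(1 / 2) ≤ x / l := by
            rw [le_div_iff₀ hl]
            linarith
          have h4 := min_le_right ((y - x) ^ 2 / (2 * l)) (|y - x| / 4)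
          rw [abs_of_nonpos (by linarith : y - x ≤ 0)] at h4 ⊢
          nlinarith [mul_nonneg (by linarith : 0 ≤ 1 / 2 + x / l) (by linarith : 0 ≤ -y - (l - x) / 2)]
        · nlinarith [mul_nonneg (by linarith : 0 ≤ 1 + x / l) (by linarith : 0 ≤ -y - (l - x) / 2)]
  · have hx2 : ¬ |x| ≤ l / 2 := fun h => hx (by linarith)
    rw [if_neg hx, if_neg hx, if_neg hx2]
    have hy : ∀ z : ℝ, (z = |y| ∨ z ≤ |y|) → z - l / 2 ≤ (if |y| ≤ l then y ^ 2 / (2 * l) else |y| - l / 2) := by
      intro z hz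
      have hz' : z ≤ |y| := hz.elim le_of_eq id
      split_ifs with h
      · rw [le_div_iff₀ (by positivity), ← sq_abs y]
        nlinarith [sq_nonneg (|y| - l)]
      · linarith
    rcases le_or_gt 0 x with h0 | h0
    · rw [if_pos h0, abs_of_nonneg h0]
      have := hy y (Or.inr (le_abs_self y))
      linarith
    · rw [if_neg (not_le.2 h0), abs_of_neg h0]
      have := hy (-y) (Or.inr (neg_le_abs y))
      linarith

lemma eps_lt (n : ℕ) (η : ℝ) (hn : 4 ≤ n) (h0 : 0 < η) (h1 : η ≤ 1 / 10) :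
    (2 + η ^ 4) / n < 1 := by
  have hn' : (4 : ℝ) ≤ n := by exact_mod_cast hn
  rw [div_lt_one (by linarith)]
  have : η ^ 4 ≤ 1 := pow_le_one₀ h0.le (by linarith)
  linarith

lemma XX_le {s r : Side n} {S R : Set (Eu n)} {ε d : ℝ} (hn : 0 < n) (hs : s.Good S ε d)
    (hc : Cross s r S R) (a : s.A) (i : s.I) (z : Eu n) (hz : z ∈ R) :
    |inner ℝ (s.V a i) z / √n| ≤ 1 := by
  have hn' : (0 : ℝ) < √n := Real.sqrt_pos.2 (by exact_mod_cast hn)
  rw [abs_div, abs_of_pos hn', div_le_one hn']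
  unfold Side.V
  rw [inner_smul_left, inner_sub_left]
  have h1 := abs_le.1 (hc.st _ (hs.tS a) z hz)
  have h2 := abs_le.1 (hc.st _ (hs.tS' a i) z hz)
  simp only [map_div₀, map_one, map_ofNat]
  rw [abs_le]
  constructor <;> linarith

/-- The difference of `X` along a transition of the second side. -/
lemma XX_diff (s r : Side n) (a : s.A) (i : s.I) (b : r.A) (j : r.I) (hn : 0 < n) :
    inner ℝ (s.V a i) (r.t' b j) / √n - inner ℝ (s.V a i) (r.t b) / √n =
      -(2 / n) * BB s r a i b j := by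
  have hn' : (0 : ℝ) < √n := Real.sqrt_pos.2 (by exact_mod_cast hn)
  have h1 : (n : ℝ) = √n * √n := (Real.mul_self_sqrt (Nat.cast_nonneg n)).symm
  have h2 : r.t' b j = r.t b - (2 : ℝ) • r.V b j := by
    rw [← V_sub]; abel
  unfold BB
  rw [h2, inner_sub_right, inner_smul_right]
  set x := inner ℝ (s.V a i) (r.t b)
  set y := inner ℝ (s.V a i) (r.V b j)
  set u := √(n : ℝ) with hu
  have : (2 / (n : ℝ)) = 2 / (u * u) := by rw [← h1]
  rw [this]
  field_simp
  ring

theorem hub (hSec : SecStmt) : HubStmt := by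
  intro n s r S R η d hn hη0 hη1 hd0 hd1 hs hr hc hX
  have hn4 : 4 ≤ n := le_trans (by norm_num) hn
  have hnpos : 0 < n := by omega
  have hnR : (10 : ℝ) ^ 7 ≤ n := by exact_mod_cast hn
  have hεlt := eps_lt n η hn4 hη0 (by linarith)
  set u : ℝ := √n with hu
  have hu2 : u * u = n := Real.mul_self_sqrt (Nat.cast_nonneg n)
  have hu3 : 3162 ≤ u := by
    rw [hu]
    apply Real.le_sqrt_of_sq_le
    linarith
  have hu0 : 0 < u := by linarith
  set l : ℝ := 1 / u with hl
  have hl0 : 0 < l := by positivity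
  obtain ⟨-, hB, -⟩ := hSec n s r S R η d 0 hn4 hη0 (by linarith) hd0 hd1 hs hr hc le_rfl zero_le_one
  set EX := ex2 s r (fun a i b _ => |XX s r a i b|) with hEX
  set M : s.A → s.I → r.A → r.I → ℝ := fun a i b j =>
    hm l (inner ℝ (s.V a i) (r.t b) / √n) (inner ℝ (s.V a i) (r.t' b j) / √n) with hM
  have h1 : ex2 s r M ≤ d + (2 + η ^ 4) / n * EX := by
    have h2 : ∀ a i, r.ex (fun b j => M a i b j) ≤
        d + r.ex (fun b _ => (2 + η ^ 4) / n * |XX s r a i b|) := by
      intro a i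
      refine (stat1 r hr (s.V a i) √n (hf l) (hd l) (hm l) ?_ fun x y => hf_rem l x y hl0).trans ?_
      · intro z hz
        rw [abs_of_nonneg (hf_nonneg _ _ hl0)]
        exact (hf_le _ _ hl0).trans (XX_le (r := r) hnpos hs hc a i z hz)
      · have := r.ex_mono hr.wt (F := fun b _ => r.e b * (hd l (inner ℝ (s.V a i) (r.t b) / √n) *
            (inner ℝ (s.V a i) (r.t b) / √n))) (G := fun b _ => (2 + η ^ 4) / n * |XX s r a i b|) ?_
        · linarith
        · intro b j
          have h3 := hd_mul l (inner ℝ (s.V a i) (r.t b) / √n) hl0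
          have h4 := e_le hr hεlt b
          have h5 := hr.e0 b
          calc r.e b * (hd l (inner ℝ (s.V a i) (r.t b) / √n) * (inner ℝ (s.V a i) (r.t b) / √n))
              ≤ r.e b * |XX s r a i b| := mul_le_mul_of_nonneg_left h3 h5
            _ ≤ _ := mul_le_mul_of_nonneg_right h4 (abs_nonneg _)
    have h3 := s.ex_mono hs.wt h2
    rw [s.ex_add, s.ex_const hs.wt] at h3
    have h4 : s.ex (fun a i => r.ex (fun b _ => (2 + η ^ 4) / n * |XX s r a i b|)) =
        (2 + η ^ 4) / n * EX := by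
      rw [hEX, ← ex2_mul_left]
      rfl
    rw [h4] at h3
    exact h3
  -- the pointwise inequality
  have h2 : ∀ a i b j, |BB s r a i b j| ≤ 1 / 20 + 5 / 2 * (u ^ 3 * M a i b j) +
      (1 / 10 * BB s r a i b j ^ 2 + 5 * (u * |XX s r a i b|)) := by
    intro a i b j
    have hdf := XX_diff s r a i b j hnpos
    have hXX : XX s r a i b = inner ℝ (s.V a i) (r.t b) / √n := rfl
    have e2 : M a i b j = hm l (inner ℝ (s.V a i) (r.t b) / √n)
      (inner ℝ (s.V a i) (r.t' b j) / √n) := rfl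
    rw [e2]
    unfold hm
    rw [← hXX] at hdf ⊢
    set X := XX s r a i b
    set B := BB s r a i b j
    set X' := inner ℝ (s.V a i) (r.t' b j) / √n
    have hB0 := abs_nonneg B
    have hX0 := abs_nonneg X
    have hB2 : B ^ 2 = |B| ^ 2 := (sq_abs B).symm
    by_cases hcase : |X| ≤ l / 2
    · rw [if_pos hcase, hdf]
      have e3 : u ^ 3 * ((-(2 / (n : ℝ)) * B) ^ 2 / (2 * l)) = 2 * |B| ^ 2 := by
        rw [← hu2, hl, ← hB2]
        field_simp
      have e4 : u ^ 3 * (|-(2 / (n : ℝ)) * B| / 4) = u * |B| / 2 := by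
        rw [abs_mul, abs_neg, abs_of_nonneg (by positivity : (0:ℝ) ≤ 2 / n), ← hu2]
        field_simp
        ring
      rcases min_choice ((-(2 / (n : ℝ)) * B) ^ 2 / (2 * l)) (|-(2 / (n : ℝ)) * B| / 4) with h | h
      · rw [h, e3, hB2]
        nlinarith [sq_nonneg (|B| - 1 / 10), mul_nonneg hu0.le hX0]
      · rw [h, e4]
        have : 3162 * |B| ≤ u * |B| := mul_le_mul_of_nonneg_right hu3 hB0
        nlinarith [sq_nonneg B, mul_nonneg hu0.le hX0]
    · rw [if_neg hcase, mul_zero, hB2]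
      push Not at hcase
      have h3 : 1 < 2 * (u * |X|) := by
        rw [hl] at hcase
        have := mul_lt_mul_of_pos_left hcase hu0
        have e5 : u * (1 / u / 2) = 1 / 2 := by field_simp
        rw [e5] at this
        linarith
      nlinarith [sq_nonneg (|B| - 5)]
  have h3 := ex2_mono s r hs.wt hr.wt h2
  rw [ex2_add, ex2_add, ex2_add, ex2_mul_left, ex2_mul_left, ex2_mul_left, ex2_mul_left,
    ex2_mul_left, ex2_const s r hs.wt hr.wt, ← hEX] at h3
  have hη4 : η ^ 4 ≤ 1 / 10 ^ 12 := by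
    calc η ^ 4 ≤ (1 / 1000) ^ 4 := pow_le_pow_left₀ hη0.le hη1 4
      _ = 1 / 10 ^ 12 := by norm_num
  have hη40 : 0 ≤ η ^ 4 := by positivity
  -- numbers
  have h4 : u * EX ≤ 3 / 1000 + 5 / 3162 := by
    have := mul_le_mul_of_nonneg_left hX hu0.le
    refine this.trans ?_
    rw [mul_add, ← hu2]
    have e1 : u * (3 * (1 / 1000) / u) = 3 / 1000 := by field_simp
    have e2 : u * (5 / (u * u)) = 5 / u := by field_simp
    rw [e1, e2]
    have : 5 / u ≤ 5 / 3162 := div_le_div_of_nonneg_left (by norm_num) (by norm_num) hu3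
    linarith
  have h5 : u ^ 3 * ex2 s r M ≤ 1 / 10 ^ 12 + (2 + 1 / 10 ^ 12) * (3 / 1000 + 5 / 3162) := by
    have hEX0 : 0 ≤ EX := ex2_nonneg s r hs.wt hr.wt fun _ _ _ _ => abs_nonneg _
    have := mul_le_mul_of_nonneg_left h1 (by positivity : 0 ≤ u ^ 3)
    refine this.trans ?_
    rw [mul_add]
    refine add_le_add ?_ ?_
    · have e1 : d ≤ 1 / 10 ^ 12 / u ^ 3 := by
        refine hd1.trans ?_
        refine (div_le_div_of_nonneg_right hη4 (by positivity)).trans ?_
        refine div_le_div_of_nonneg_left (by positivity) (by positivity) ?_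
        rw [← hu2, mul_pow]
        nlinarith [one_le_pow₀ (by linarith : 1 ≤ u) (n := 3), (by positivity : 0 < u ^ 3)]
      calc u ^ 3 * d ≤ u ^ 3 * (1 / 10 ^ 12 / u ^ 3) := mul_le_mul_of_nonneg_left e1 (by positivity)
        _ = _ := by field_simp
    · have e1 : u ^ 3 * ((2 + η ^ 4) / n * EX) = (2 + η ^ 4) * (u * EX) := by
        rw [← hu2]
        field_simp
      rw [e1]
      exact mul_le_mul (by linarith) h4 (by positivity) (by positivity)
  have h6 : ex2 s r (fun a i b j => BB s r a i b j ^ 2) ≤ 1 + 2 / 1000 := by linarith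
  have h7 : ex2 s r M = ex2 s r fun a i b j => M a i b j := rfl
  rw [← h7] at h3
  nlinarith

end Pool.Agent.PJC.H70
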