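import Pool.Agent.Helper70_PJC.HUB

set_option autoImplicit false

namespace Pool.Agent.PJC.H70

open Finset

variable {n : ℕ}

/-- Stationarity for a bounded function. -/
lemma stat0 {s : Side n} {S : Set (Eu n)} {ε d : ℝ} (hs : s.Good S ε d) (f : Eu n → ℝ)
    (hf : ∀ x ∈ S, |f x| ≤ 1) :
    s.ex (fun a i => f (s.t' a i)) ≤ s.ex (fun a _ => f (s.t a)) + d := by
  have h1 := (abs_le.1 (hs.stat f hf)).2
  rw [s.ex_left hs.wt]
  unfold Side.ex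
  have h2 : ∑ a, s.μ a * (∑ i, s.w a i * f (s.t' a i) - f (s.t a)) =
      ∑ a, s.μ a * ∑ i, s.w a i * f (s.t' a i) - ∑ a, s.μ a * f (s.t a) := by
    rw [← sum_sub_distrib]
    refine sum_congr rfl fun a _ => ?_
    ring
  rw [h2] at h1
  linarith

lemma dich (y0 y1 y2 y3 : ℝ) (h0 : |y0| ≤ 1) (h1 : |y1| ≤ 1) (h2 : |y2| ≤ 1) (h3 : |y3| ≤ 1) :
    |y0 - y1 - y2 + y3| ≤ (1 - y0 ^ 2) + (1 - y1 ^ 2) + (1 - y2 ^ 2) + (1 - y3 ^ 2) ∨
    2 - ((1 - y0 ^ 2) + (1 - y1 ^ 2) + (1 - y2 ^ 2) + (1 - y3 ^ 2)) ≤ |y0 - y1 - y2 + y3| := by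
  have key : ∀ y : ℝ, |y| ≤ 1 → (y ≤ 1 ∧ 1 - (1 - y ^ 2) ≤ y) ∨ (-1 ≤ y ∧ y ≤ -1 + (1 - y ^ 2)) := by
    intro y hy
    have h := abs_le.1 hy
    rcases le_total 0 y with h' | h'
    · left
      exact ⟨h.2, by nlinarith⟩
    · right
      exact ⟨h.1, by nlinarith⟩
  have pos : ∀ y : ℝ, |y| ≤ 1 → 0 ≤ 1 - y ^ 2 := by
    intro y hy
    have := abs_le.1 hy
    nlinarith
  have p0 := pos _ h0
  have p1 := pos _ h1
  have p2 := pos _ h2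
  have p3 := pos _ h3
  have k0 := key _ h0
  have k1 := key _ h1
  have k2 := key _ h2
  have k3 := key _ h3
  clear key pos h0 h1 h2 h3
  generalize hs0 : 1 - y0 ^ 2 = s0 at *
  generalize hs1 : 1 - y1 ^ 2 = s1 at *
  generalize hs2 : 1 - y2 ^ 2 = s2 at *
  generalize hs3 : 1 - y3 ^ 2 = s3 at *
  clear hs0 hs1 hs2 hs3
  have n1 := le_abs_self (y0 - y1 - y2 + y3)
  have n2 := neg_le_abs (y0 - y1 - y2 + y3)
  rcases k0 with ⟨a0, b0⟩ | ⟨a0, b0⟩ <;> rcases k1 with ⟨a1, b1⟩ | ⟨a1, b1⟩ <;>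
    rcases k2 with ⟨a2, b2⟩ | ⟨a2, b2⟩ <;> rcases k3 with ⟨a3, b3⟩ | ⟨a3, b3⟩ <;>
    first
    | (left; rw [abs_le]; constructor <;> linarith)
    | (right; linarith)

lemma point (n' y0 y1 y2 y3 B : ℝ) (hn : 4 ≤ n') (h0 : |y0| ≤ 1) (h1 : |y1| ≤ 1)
    (h2 : |y2| ≤ 1) (h3 : |y3| ≤ 1) (hB : B = n' / 4 * (y0 - y1 - y2 + y3)) :
    |B| ≤ 1 / 32 + 32 / 63 * B ^ 2 + (1 / 10 * B ^ 2 + 20 * n' *
      ((1 - y0 ^ 2) + (1 - y1 ^ 2) + (1 - y2 ^ 2) + (1 - y3 ^ 2))) := by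
  have hd := dich y0 y1 y2 y3 h0 h1 h2 h3
  have pos : ∀ y : ℝ, |y| ≤ 1 → 0 ≤ 1 - y ^ 2 := by
    intro y hy
    have := abs_le.1 hy
    nlinarith
  have hS0 : 0 ≤ (1 - y0 ^ 2) + (1 - y1 ^ 2) + (1 - y2 ^ 2) + (1 - y3 ^ 2) := by
    linarith [pos _ h0, pos _ h1, pos _ h2, pos _ h3]
  set S := (1 - y0 ^ 2) + (1 - y1 ^ 2) + (1 - y2 ^ 2) + (1 - y3 ^ 2) with hS
  have hBa : |B| = n' / 4 * |y0 - y1 - y2 + y3| := by
    rw [hB, abs_mul, abs_of_nonneg (by linarith : 0 ≤ n' / 4)]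
  have hB2 : B ^ 2 = |B| ^ 2 := (sq_abs B).symm
  have hB0 := abs_nonneg B
  rw [hB2]
  have hnS : 0 ≤ n' * S := mul_nonneg (by linarith) hS0
  rcases le_or_gt (n' * S) (1 / 8) with hc | hc
  · rcases hd with hd | hd
    · have : |B| ≤ 1 / 32 := by
        rw [hBa]
        have := mul_le_mul_of_nonneg_left hd (by linarith : 0 ≤ n' / 4)
        linarith
      nlinarith [sq_nonneg (|B|)]
    · have : 63 / 32 ≤ |B| := by
        rw [hBa]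
        have h4 := mul_le_mul_of_nonneg_left hd (by linarith : 0 ≤ n' / 4)
        refine le_trans ?_ h4
        nlinarith
      nlinarith [sq_nonneg (|B|)]
  · nlinarith [sq_nonneg (|B| - 5), sq_nonneg (|B|)]

theorem sml (hSec : SecStmt) : SmlStmt := by
  intro n s r S R η d hn4 hn7 hη0 hη1 hd0 hd1 hs hr hc hy
  have hnpos : 0 < n := by omega
  have hnR4 : (4 : ℝ) ≤ n := by exact_mod_cast hn4
  have hnR : (n : ℝ) ≤ 10 ^ 7 := by exact_mod_cast hn7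
  set u : ℝ := √n with hu
  have hu2 : u * u = n := Real.mul_self_sqrt (Nat.cast_nonneg n)
  have hu0 : 0 < u := Real.sqrt_pos.2 (by exact_mod_cast hnpos)
  have hη' : η ≤ 1 / 10 := hη1.trans (by norm_num)
  obtain ⟨-, hB, -⟩ := hSec n s r S R η d 0 hn4 hη0 hη' hd0 hd1 hs hr hc le_rfl zero_le_one
  have hyle : ∀ x ∈ S, ∀ z ∈ R, |inner ℝ x z / u| ≤ 1 := by
    intro x hx z hz
    rw [abs_div, abs_of_pos hu0, div_le_one hu0]
    exact hc.st x hx z hz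
  have hfle : ∀ x ∈ S, ∀ z ∈ R, |1 - (inner ℝ x z / u) ^ 2| ≤ 1 := by
    intro x hx z hz
    have h1 := abs_le.1 (hyle x hx z hz)
    rw [abs_le]
    constructor <;> nlinarith
  -- the four expectations
  have E00 : ex2 s r (fun a _ b _ => 1 - (inner ℝ (s.t a) (r.t b) / u) ^ 2) ≤ 1 / 10 ^ 12 := by
    rw [ex2_sub, ex2_const s r hs.wt hr.wt]
    have : ex2 s r (fun a _ b _ => (inner ℝ (s.t a) (r.t b) / u) ^ 2) =
      ex2 s r (fun a _ b _ => yy s r a b ^ 2) := rfl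
    rw [this]
    linarith
  have E10 : ex2 s r (fun a i b _ => 1 - (inner ℝ (s.t' a i) (r.t b) / u) ^ 2) ≤
      ex2 s r (fun a _ b _ => 1 - (inner ℝ (s.t a) (r.t b) / u) ^ 2) + d := by
    rw [ex2_comm, ex2_comm, ← r.ex_const hr.wt d, ← r.ex_add]
    refine r.ex_mono hr.wt fun b j => ?_
    exact stat0 hs (fun x => 1 - (inner ℝ x (r.t b) / u) ^ 2) fun x hx => hfle x hx _ (hr.tS b)
  have E01 : ex2 s r (fun a _ b j => 1 - (inner ℝ (s.t a) (r.t' b j) / u) ^ 2) ≤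
      ex2 s r (fun a _ b _ => 1 - (inner ℝ (s.t a) (r.t b) / u) ^ 2) + d := by
    unfold ex2
    rw [← s.ex_const hs.wt d, ← s.ex_add]
    refine s.ex_mono hs.wt fun a i => ?_
    exact stat0 hr (fun z => 1 - (inner ℝ (s.t a) z / u) ^ 2) fun z hz => hfle _ (hs.tS a) z hz
  have E11 : ex2 s r (fun a i b j => 1 - (inner ℝ (s.t' a i) (r.t' b j) / u) ^ 2) ≤
      ex2 s r (fun a i b _ => 1 - (inner ℝ (s.t' a i) (r.t b) / u) ^ 2) + d := by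
    unfold ex2
    rw [← s.ex_const hs.wt d, ← s.ex_add]
    refine s.ex_mono hs.wt fun a i => ?_
    exact stat0 hr (fun z => 1 - (inner ℝ (s.t' a i) z / u) ^ 2) fun z hz => hfle _ (hs.tS' a i) z hz
  have hp : ∀ a i b j, |BB s r a i b j| ≤ 1 / 32 + 32 / 63 * BB s r a i b j ^ 2 +
      (1 / 10 * BB s r a i b j ^ 2 + 20 * n *
      ((1 - (inner ℝ (s.t a) (r.t b) / u) ^ 2) + (1 - (inner ℝ (s.t' a i) (r.t b) / u) ^ 2) +
      (1 - (inner ℝ (s.t a) (r.t' b j) / u) ^ 2) +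
      (1 - (inner ℝ (s.t' a i) (r.t' b j) / u) ^ 2))) := by
    intro a i b j
    refine point n _ _ _ _ _ hnR4 (hyle _ (hs.tS a) _ (hr.tS b)) (hyle _ (hs.tS' a i) _ (hr.tS b))
      (hyle _ (hs.tS a) _ (hr.tS' b j)) (hyle _ (hs.tS' a i) _ (hr.tS' b j)) ?_
    have h1 := XX_diff s r a i b j hnpos
    unfold Side.V at h1
    rw [inner_smul_left, inner_smul_left, inner_sub_left, inner_sub_left] at h1
    simp only [map_div₀, map_one, map_ofNat] at h1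
    rw [← hu] at h1
    have h2 : BB s r a i b j = -(n / 2) * (-(2 / n) * BB s r a i b j) := by
      field_simp
    rw [h2, ← h1]
    ring
  have h3 := ex2_mono s r hs.wt hr.wt hp
  rw [ex2_add, ex2_add, ex2_add, ex2_mul_left, ex2_mul_left, ex2_mul_left,
    ex2_const s r hs.wt hr.wt, ex2_add, ex2_add, ex2_add] at h3
  have hd2 : d ≤ 1 / 10 ^ 24 := by
    refine hd1.trans ?_
    have h4 : η ^ 4 ≤ (1 / 10 ^ 6) ^ 4 := pow_le_pow_left₀ hη0.le hη1 4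
    have h5 : (1 : ℝ) ≤ (n : ℝ) ^ 3 := one_le_pow₀ (by linarith)
    calc η ^ 4 / (n : ℝ) ^ 3 ≤ η ^ 4 / 1 := div_le_div_of_nonneg_left (by positivity) one_pos h5
      _ ≤ _ := by rw [div_one]; refine h4.trans (by norm_num)
  set x00 := ex2 s r (fun a _ b _ => 1 - (inner ℝ (s.t a) (r.t b) / u) ^ 2)
  set x10 := ex2 s r (fun a i b _ => 1 - (inner ℝ (s.t' a i) (r.t b) / u) ^ 2)
  set x01 := ex2 s r (fun a _ b j => 1 - (inner ℝ (s.t a) (r.t' b j) / u) ^ 2)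
  set x11 := ex2 s r (fun a i b j => 1 - (inner ℝ (s.t' a i) (r.t' b j) / u) ^ 2)
  have h6 : 20 * n * (x00 + x10 + x01 + x11) ≤ 20 * 10 ^ 7 * (4 / 10 ^ 12 + 4 / 10 ^ 24) := by
    have h7 : x00 + x10 + x01 + x11 ≤ 4 / 10 ^ 12 + 4 / 10 ^ 24 := by linarith
    calc 20 * n * (x00 + x10 + x01 + x11) ≤ 20 * n * (4 / 10 ^ 12 + 4 / 10 ^ 24) :=
          mul_le_mul_of_nonneg_left h7 (by linarith)
      _ ≤ _ := mul_le_mul_of_nonneg_right (by linarith) (by norm_num)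
  have h7 : ex2 s r (fun a i b j => BB s r a i b j ^ 2) ≤ 1 + 2 / 10 ^ 6 := by linarith
  norm_num at h3 h6 h7 ⊢
  linarith

end Pool.Agent.PJC.H70
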